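import Pool.Agent.InfS.Main4

/-!
# Torsion group ℤ/4 and rank at least 8: infinitely many curves

`E₀ : y² = x (x + 150800)(x - 43681)`, the point `(-35280, 17939040)` has infinite order.  A point `(x, y)` gives
`m = (520 (x - 43681) - 3 y)/(9 (9x + 108680))`, `u = (2m² - 36m - 418)/(m² + 209)`,
`v = (3762 - 18m² - 836m)/(m² + 209)`, `w = (729 m² - 9360 m - (2x + 64999))/(27 (m² + 209))` with
`v² = 1160 - 209 u²`, `w² = 130 u² + 209`.
-/

set_option autoImplicit false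

namespace Pool.Agent.InfS

open WeierstrassCurve Pool.Agent.InfR

section aux

private def bm {K : Type*} [Field K] (x y : K) : K := (520 * (x - 43681) - 3 * y) / (9 * (9 * x + 108680))

private def bu {K : Type*} [Field K] (m : K) : K := (2 * m ^ 2 - 36 * m - 418) / (m ^ 2 + 209)

private def bv {K : Type*} [Field K] (m : K) : K := (3762 - 18 * m ^ 2 - 836 * m) / (m ^ 2 + 209)

private def bw {K : Type*} [Field K] (x m : K) : K :=
  (729 * m ^ 2 - 9360 * m - (2 * x + 64999)) / (27 * (m ^ 2 + 209))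

private theorem cgc {p : ℕ} [Fact p.Prime] {a : ℚ} {b c : ZMod p} (h : Cg p a b) (hb : b = c) :
    Cg p a c := hb ▸ h

private theorem cgm {p : ℕ} [Fact p.Prime] {x y : ℚ} {r s : ZMod p} (hx : Cg p x r) (hy : Cg p y s)
    (h : 9 * (9 * r + 108680) ≠ 0) : Cg p (bm x y) (bm r s) :=
  Cg.div (Cg.sub (Cg.mul (Cg.ofNat 520) (Cg.sub hx (Cg.ofNat 43681))) (Cg.mul (Cg.ofNat 3) hy))
    (Cg.mul (Cg.ofNat 9) (Cg.add (Cg.mul (Cg.ofNat 9) hx) (Cg.ofNat 108680))) h

private theorem cgu {p : ℕ} [Fact p.Prime] {m : ℚ} {r : ZMod p} (hm : Cg p m r)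
    (h : r ^ 2 + 209 ≠ 0) : Cg p (bu m) (bu r) :=
  Cg.div (Cg.sub (Cg.sub (Cg.mul (Cg.ofNat 2) (Cg.pow hm 2)) (Cg.mul (Cg.ofNat 36) hm)) (Cg.ofNat 418))
    (Cg.add (Cg.pow hm 2) (Cg.ofNat 209)) h

private theorem cgv {p : ℕ} [Fact p.Prime] {m : ℚ} {r : ZMod p} (hm : Cg p m r)
    (h : r ^ 2 + 209 ≠ 0) : Cg p (bv m) (bv r) :=
  Cg.div (Cg.sub (Cg.sub (Cg.ofNat 3762) (Cg.mul (Cg.ofNat 18) (Cg.pow hm 2))) (Cg.mul (Cg.ofNat 836) hm))
    (Cg.add (Cg.pow hm 2) (Cg.ofNat 209)) h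

private theorem cgw {p : ℕ} [Fact p.Prime] {x m : ℚ} {s r : ZMod p} (hx : Cg p x s) (hm : Cg p m r)
    (h : 27 * (r ^ 2 + 209) ≠ 0) : Cg p (bw x m) (bw s r) :=
  Cg.div (Cg.sub (Cg.sub (Cg.mul (Cg.ofNat 729) (Cg.pow hm 2)) (Cg.mul (Cg.ofNat 9360) hm))
    (Cg.add (Cg.mul (Cg.ofNat 2) hx) (Cg.ofNat 64999)))
    (Cg.mul (Cg.ofNat 27) (Cg.add (Cg.pow hm 2) (Cg.ofNat 209))) h

private theorem nm (m : ℚ) : m ^ 2 + 209 ≠ 0 := by positivity

private theorem eq_v (m : ℚ) : bv m ^ 2 = 1160 - 209 * bu m ^ 2 := by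
  have h := nm m
  unfold bv bu
  field_simp
  ring

private theorem eq_w {x y m : ℚ} (hE : y ^ 2 = x ^ 3 + 107119 * x ^ 2 + (-6587094800) * x)
    (hx : 9 * x + 108680 ≠ 0) (hm : 3 * y = 520 * (x - 43681) - 9 * m * (9 * x + 108680)) :
    bw x m ^ 2 = 130 * bu m ^ 2 + 209 := by
  have h1 : (729 * m ^ 2 - 9360 * m - (2 * x + 64999)) ^ 2 =
      729 * (130 * (2 * m ^ 2 - 36 * m - 418) ^ 2 + 209 * (m ^ 2 + 209) ^ 2) := by
    have h2 : (9 * x + 108680) * ((729 * m ^ 2 - 9360 * m - (2 * x + 64999)) ^ 2 -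
        729 * (130 * (2 * m ^ 2 - 36 * m - 418) ^ 2 + 209 * (m ^ 2 + 209) ^ 2)) = 0 := by
      have h3 : 9 * y ^ 2 = (520 * (x - 43681) - 9 * m * (9 * x + 108680)) ^ 2 := by
        rw [← hm]
        ring
      rw [hE] at h3
      linear_combination 4 * h3
    have h4 := (mul_eq_zero.1 h2).resolve_left hx
    linarith
  have h := nm m
  unfold bw bu
  rw [div_pow, div_pow, mul_pow, h1]
  field_simp
  ring

private theorem ns0 : (WI ℚ 107119 (-6587094800)).toAffine.Nonsingular ((-35280 : ℤ) : ℚ)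
    ((17939040 : ℤ) : ℚ) :=
  WI_nonsing _ _ (by norm_num) _ _ (by norm_num)

private theorem not_fin : ¬ IsOfFinAddOrder
    (Affine.Point.some _ _ ns0 : (WI ℚ 107119 (-6587094800)).toAffine.Point) := by
  obtain ⟨f, hf⟩ := WI_rdn 107119 (-6587094800) 23 (by norm_num)
  obtain ⟨g, hg⟩ := WI_rdn 107119 (-6587094800) 17 (by norm_num)
  refine inf_of (by norm_num) hf hg (by rw [cardE17]; norm_num) (by rw [cardE23]; norm_num)
    (n := 8) (by rw [cardE17, cardE23]; decide) _ ?_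
  obtain ⟨h', e⟩ := hf.red _ _ ns0 _ _ (Cg.of_int _) (Cg.of_int _)
  rw [e]
  exact kE h'

private theorem st_of (x y : ℚ) (hE : y ^ 2 = x ^ 3 + 107119 * x ^ 2 + (-6587094800) * x)
    (c : ∀ (p : ℕ) [Fact p.Prime], p ∈ ({17, 41, 43, 47, 61, 67, 71, 83} : Finset ℕ) →
      Cg p x ((-35280 : ℤ) : ZMod p) ∧ Cg p y ((17939040 : ℤ) : ZMod p)) :
    9 * x + 108680 ≠ 0 ∧ St4 (bu (bm x y)) (bv (bm x y)) (bw x (bm x y)) := by
  have hx : 9 * x + 108680 ≠ 0 := by
    have h17 := (c 17 (by decide)).1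
    exact ((Cg.mul (Cg.ofNat 9) h17).add (Cg.ofNat 108680)).ne_zero (by decide +kernel)
  have hm : 3 * y = 520 * (x - 43681) - 9 * bm x y * (9 * x + 108680) := by
    have h9 : 9 * (9 * x + 108680) ≠ 0 := mul_ne_zero (by norm_num) hx
    have h10 := div_mul_cancel₀ (520 * (x - 43681) - 3 * y) h9
    unfold bm
    linear_combination h10
  exact ⟨hx,
  { e1 := eq_v _
    e2 := eq_w hE hx hm
    u17 := cgc (cgu (cgm (c 17 (by decide)).1 (c 17 (by decide)).2 (by decide +kernel)) (by decide +kernel)) (by decide +kernel)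
    v17 := cgc (cgv (cgm (c 17 (by decide)).1 (c 17 (by decide)).2 (by decide +kernel)) (by decide +kernel)) (by decide +kernel)
    w17 := cgc (cgw (c 17 (by decide)).1 (cgm (c 17 (by decide)).1 (c 17 (by decide)).2 (by decide +kernel)) (by decide +kernel)) (by decide +kernel)
    u41 := cgc (cgu (cgm (c 41 (by decide)).1 (c 41 (by decide)).2 (by decide +kernel)) (by decide +kernel)) (by decide +kernel)
    v41 := cgc (cgv (cgm (c 41 (by decide)).1 (c 41 (by decide)).2 (by decide +kernel)) (by decide +kernel)) (by decide +kernel)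
    w41 := cgc (cgw (c 41 (by decide)).1 (cgm (c 41 (by decide)).1 (c 41 (by decide)).2 (by decide +kernel)) (by decide +kernel)) (by decide +kernel)
    u43 := cgc (cgu (cgm (c 43 (by decide)).1 (c 43 (by decide)).2 (by decide +kernel)) (by decide +kernel)) (by decide +kernel)
    v43 := cgc (cgv (cgm (c 43 (by decide)).1 (c 43 (by decide)).2 (by decide +kernel)) (by decide +kernel)) (by decide +kernel)
    w43 := cgc (cgw (c 43 (by decide)).1 (cgm (c 43 (by decide)).1 (c 43 (by decide)).2 (by decide +kernel)) (by decide +kernel)) (by decide +kernel)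
    u47 := cgc (cgu (cgm (c 47 (by decide)).1 (c 47 (by decide)).2 (by decide +kernel)) (by decide +kernel)) (by decide +kernel)
    v47 := cgc (cgv (cgm (c 47 (by decide)).1 (c 47 (by decide)).2 (by decide +kernel)) (by decide +kernel)) (by decide +kernel)
    w47 := cgc (cgw (c 47 (by decide)).1 (cgm (c 47 (by decide)).1 (c 47 (by decide)).2 (by decide +kernel)) (by decide +kernel)) (by decide +kernel)
    u61 := cgc (cgu (cgm (c 61 (by decide)).1 (c 61 (by decide)).2 (by decide +kernel)) (by decide +kernel)) (by decide +kernel)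
    v61 := cgc (cgv (cgm (c 61 (by decide)).1 (c 61 (by decide)).2 (by decide +kernel)) (by decide +kernel)) (by decide +kernel)
    w61 := cgc (cgw (c 61 (by decide)).1 (cgm (c 61 (by decide)).1 (c 61 (by decide)).2 (by decide +kernel)) (by decide +kernel)) (by decide +kernel)
    u67 := cgc (cgu (cgm (c 67 (by decide)).1 (c 67 (by decide)).2 (by decide +kernel)) (by decide +kernel)) (by decide +kernel)
    v67 := cgc (cgv (cgm (c 67 (by decide)).1 (c 67 (by decide)).2 (by decide +kernel)) (by decide +kernel)) (by decide +kernel)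
    w67 := cgc (cgw (c 67 (by decide)).1 (cgm (c 67 (by decide)).1 (c 67 (by decide)).2 (by decide +kernel)) (by decide +kernel)) (by decide +kernel)
    u71 := cgc (cgu (cgm (c 71 (by decide)).1 (c 71 (by decide)).2 (by decide +kernel)) (by decide +kernel)) (by decide +kernel)
    v71 := cgc (cgv (cgm (c 71 (by decide)).1 (c 71 (by decide)).2 (by decide +kernel)) (by decide +kernel)) (by decide +kernel)
    w71 := cgc (cgw (c 71 (by decide)).1 (cgm (c 71 (by decide)).1 (c 71 (by decide)).2 (by decide +kernel)) (by decide +kernel)) (by decide +kernel)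
    u83 := cgc (cgu (cgm (c 83 (by decide)).1 (c 83 (by decide)).2 (by decide +kernel)) (by decide +kernel)) (by decide +kernel)
    v83 := cgc (cgv (cgm (c 83 (by decide)).1 (c 83 (by decide)).2 (by decide +kernel)) (by decide +kernel)) (by decide +kernel)
    w83 := cgc (cgw (c 83 (by decide)).1 (cgm (c 83 (by decide)).1 (c 83 (by decide)).2 (by decide +kernel)) (by decide +kernel)) (by decide +kernel) }⟩

private theorem fin_cubic (a b c d : ℚ) (h : a ≠ 0 ∨ b ≠ 0 ∨ c ≠ 0 ∨ d ≠ 0) :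
    {x : ℚ | a * x ^ 3 + b * x ^ 2 + c * x + d = 0}.Finite := by
  have h0 : (⟨a, b, c, d⟩ : Cubic ℚ).toPoly ≠ 0 := by
    rcases h with h | h | h | h
    · exact Cubic.ne_zero_of_a_ne_zero h
    · exact Cubic.ne_zero_of_b_ne_zero h
    · exact Cubic.ne_zero_of_c_ne_zero h
    · exact Cubic.ne_zero_of_d_ne_zero h
  refine (Polynomial.finite_setOfPred_isRoot h0).subset ?_
  intro x hx
  simpa [Polynomial.IsRoot, Cubic.toPoly] using hx

private theorem fin_fibre (a : ℚ) : {q : ℚ × ℚ | q.2 ^ 2 = q.1 ^ 3 + 107119 * q.1 ^ 2 +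
    (-6587094800) * q.1 ∧ 9 * q.1 + 108680 ≠ 0 ∧ bu (bm q.1 q.2) ^ 2 = a}.Finite := by
  have hU : {u : ℚ | 0 * u ^ 3 + 1 * u ^ 2 + 0 * u + (-a) = 0}.Finite := by
    apply fin_cubic
    right; left; norm_num
  have hM : ∀ u : ℚ, {m : ℚ | 0 * m ^ 3 + (2 - u) * m ^ 2 + (-36) * m + (-418 - 209 * u) = 0}.Finite := by
    intro u
    apply fin_cubic
    right; right; left; norm_num
  have hX : ∀ m : ℚ, {x : ℚ | 9 * x ^ 3 + (9 * 107119 - (520 - 81 * m) ^ 2) * x ^ 2 +
      (9 * (-6587094800) + 2 * (520 - 81 * m) * (520 * 43681 + 978120 * m)) * x +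
      (-(520 * 43681 + 978120 * m) ^ 2) = 0}.Finite := by
    intro m
    apply fin_cubic
    left; norm_num
  have hfin := hU.biUnion (fun u _ => (hM u).biUnion (fun m _ =>
    (hX m).image (fun x => ((x, (520 * (x - 43681) - 9 * m * (9 * x + 108680)) / 3) : ℚ × ℚ))))
  refine hfin.subset ?_
  rintro ⟨x, y⟩ ⟨hE, h1, h4⟩
  simp only at hE h1 h4
  have hm : 3 * y = 520 * (x - 43681) - 9 * bm x y * (9 * x + 108680) := by
    have h9 : 9 * (9 * x + 108680) ≠ 0 := mul_ne_zero (by norm_num) h1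
    have h10 := div_mul_cancel₀ (520 * (x - 43681) - 3 * y) h9
    unfold bm
    linear_combination h10
  simp only [Set.mem_iUnion]
  refine ⟨bu (bm x y), ?_, bm x y, ?_, x, ?_, ?_⟩
  · simp only [Set.mem_ofPred_eq]
    linear_combination h4
  · have h5 : bu (bm x y) * (bm x y ^ 2 + 209) = 2 * bm x y ^ 2 - 36 * bm x y - 418 := by
      unfold bu
      exact div_mul_cancel₀ _ (nm _)
    simp only [Set.mem_ofPred_eq]
    linear_combination -h5
  · simp only [Set.mem_ofPred_eq]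
    generalize bm x y = m at *
    have h3 : 9 * y ^ 2 = (520 * (x - 43681) - 9 * m * (9 * x + 108680)) ^ 2 := by
      rw [← hm]
      ring
    rw [hE] at h3
    linear_combination h3
  · simp only [Prod.mk.injEq, true_and]
    rw [← hm]
    ring

open Polynomial in
private theorem fin_j (j0 : ℚ) : {a : ℚ | (F4 ℚ a).c₄ ^ 3 = j0 * (F4 ℚ a).Δ}.Finite := by
  let EX : WeierstrassCurve ℚ[X] :=
    ⟨0, 106 * X ^ 2 - 240 * X + 560, 0, 25 * ((X - 4) * (9 * X - 4)) ^ 2, 0⟩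
  have hmap : ∀ r : ℚ, EX.map (Polynomial.evalRingHom r) = F4 ℚ r := by
    intro r
    simp [EX, F4, WeierstrassCurve.map]
  have hc : ∀ r : ℚ, (F4 ℚ r).c₄ = EX.c₄.eval r := by
    intro r
    rw [← hmap r, WeierstrassCurve.map_c₄]
    rfl
  have hd : ∀ r : ℚ, (F4 ℚ r).Δ = EX.Δ.eval r := by
    intro r
    rw [← hmap r, WeierstrassCurve.map_Δ]
    rfl
  have hne : EX.c₄ ^ 3 - C j0 * EX.Δ ≠ 0 := by
    intro h0
    have h1 := congrArg (Polynomial.eval 4) h0
    rw [eval_sub, eval_pow, eval_mul, eval_C, ← hc 4, ← hd 4] at h1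
    norm_num [F4, WeierstrassCurve.c₄, WeierstrassCurve.Δ, WeierstrassCurve.b₂,
      WeierstrassCurve.b₄, WeierstrassCurve.b₆, WeierstrassCurve.b₈] at h1
  refine (Polynomial.finite_setOfPred_isRoot hne).subset ?_
  intro r hr
  have h2 : (F4 ℚ r).c₄ ^ 3 = j0 * (F4 ℚ r).Δ := hr
  show Polynomial.eval r (EX.c₄ ^ 3 - C j0 * EX.Δ) = 0
  rw [eval_sub, eval_pow, eval_mul, eval_C, ← hc r, ← hd r, h2, sub_self]

end aux

theorem base4 : Set.Infinite {a : ℚ | ∃ u v w : ℚ, u ^ 2 = a ∧ St4 u v w} := by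
  obtain ⟨x, y, hinj, hE, hc⟩ := orbit 107119 (-6587094800) (-35280) 17939040 ns0 not_fin
    {17, 41, 43, 47, 61, 67, 71, 83} (by
      intro p hp
      fin_cases hp <;> norm_num)
  have hE' : ∀ k, y k ^ 2 = x k ^ 3 + 107119 * x k ^ 2 + (-6587094800) * x k := by
    intro k
    have h := hE k
    push_cast at h
    exact h
  have hst := fun k => st_of (x k) (y k) (hE' k) (fun p _ hp => hc p hp k)
  intro hfin
  refine Set.infinite_range_of_injective hinj ?_
  refine (hfin.biUnion (fun a _ => fin_fibre a)).subset ?_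
  rintro _ ⟨k, rfl⟩
  simp only [Set.mem_iUnion]
  exact ⟨bu (bm (x k) (y k)) ^ 2, ⟨_, _, _, rfl, (hst k).2⟩, hE' k, (hst k).1, rfl⟩

theorem final4 : Set.Infinite {j : ℚ | ∃ (E : WeierstrassCurve ℚ) (_ : E.IsElliptic),
    E.j = j ∧ Nonempty (AddCommGroup.torsion E.toAffine.Point ≃+ ZMod 4) ∧
    8 ≤ Module.rank ℤ E.toAffine.Point} := by
  intro hfin
  apply base4
  refine (hfin.biUnion (fun j0 _ => fin_j j0)).subset ?_
  rintro _ ⟨u, v, w, rfl, h⟩
  have hΔ := F4_ell h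
  have hE : (F4 ℚ (u ^ 2)).IsElliptic := ⟨isUnit_iff_ne_zero.2 hΔ⟩
  simp only [Set.mem_iUnion]
  refine ⟨(F4 ℚ (u ^ 2)).j, ⟨F4 ℚ (u ^ 2), hE, rfl, tor4 h, rank4 h⟩, ?_⟩
  have h1 : (F4 ℚ (u ^ 2)).j * (F4 ℚ (u ^ 2)).Δ = (F4 ℚ (u ^ 2)).c₄ ^ 3 := by
    rw [WeierstrassCurve.j, ← WeierstrassCurve.coe_Δ', mul_comm, ← mul_assoc, Units.mul_inv,
      one_mul]
  exact h1.symm

end Pool.Agent.InfS
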