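import Pool.Agent.InfR.Red
import Pool.Agent.InfR.Tor

/-!
# Infinite families of elliptic curves over ℚ of high rank: general lemmas

* `fun_one`, `fun_two`: a linear relation between points gives congruences modulo `3` after reduction;
* `red_pts`: the reduction of a family of points;
* `orbit`: infinitely many points of a curve `y² = x³ + A x² + B x` congruent to a given point modulo finitely
  many primes;
* `inf_of`: a criterion for a point to have infinite order.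
-/

set_option autoImplicit false

namespace Pool.Agent.InfS

open WeierstrassCurve Pool.Agent.InfR

theorem three_dvd {G : Type*} [AddCommGroup G] {T : G} (h3 : 3 • T = 0) (hT : T ≠ 0)
    {m : ℤ} (h : m • T = 0) : (3 : ℤ) ∣ m := by
  have h1 : addOrderOf T = 3 := addOrderOf_eq_prime h3 hT
  have h2 := addOrderOf_dvd_iff_zsmul_eq_zero.2 h
  rw [h1] at h2
  exact_mod_cast h2

theorem sum_aux {G : Type*} [AddCommGroup G] {r : ℕ} (g : G) (c n : Fin r → ℤ) :
    (∑ i, n i * c i) • g = ∑ i, n i • (c i • g) := by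
  rw [Finset.sum_smul]
  exact Finset.sum_congr rfl fun i _ => mul_smul _ _ _

theorem fun_one {G : Type*} [AddCommGroup G] {r : ℕ} (m : ℕ) (g : G) (hg : g ≠ 0)
    (h3 : 3 • g = 0) (Q : Fin r → G) (c : Fin r → ℤ) (hQ : ∀ i, m • Q i = c i • g)
    (n : Fin r → ℤ) (h : ∑ i, n i • Q i = 0) : (3 : ℤ) ∣ ∑ i, n i * c i := by
  apply three_dvd h3 hg
  have h1 : m • ∑ i, n i • Q i = ∑ i, n i • (c i • g) := by
    rw [Finset.smul_sum]
    refine Finset.sum_congr rfl fun i _ => ?_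
    rw [← hQ i, smul_comm]
  rw [sum_aux, ← h1, h, smul_zero]

theorem two_indep {G : Type*} [AddCommGroup G] {g g' : G} (hg : g ≠ 0) (hg' : g' ≠ 0)
    (h3 : 3 • g = 0) (h3' : 3 • g' = 0) (hn : g' ≠ g) (hn' : g' ≠ -g) {u v : ℤ}
    (h : u • g + v • g' = 0) : (3 : ℤ) ∣ u ∧ (3 : ℤ) ∣ v := by
  have z3 : (3 : ℤ) • g = 0 := by exact_mod_cast h3
  have z3' : (3 : ℤ) • g' = 0 := by exact_mod_cast h3'
  have hu : u • g = (u % 3) • g := by
    conv_lhs => rw [← Int.emod_add_mul_ediv u 3, add_smul, mul_comm, mul_smul, z3, smul_zero,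
      add_zero]
  have hv : v • g' = (v % 3) • g' := by
    conv_lhs => rw [← Int.emod_add_mul_ediv v 3, add_smul, mul_comm, mul_smul, z3', smul_zero,
      add_zero]
  rw [hu, hv] at h
  have t2 : (2 : ℤ) • g = -g := by
    have : (2 : ℤ) • g = (3 : ℤ) • g - g := by module
    rw [this, z3, zero_sub]
  have t2' : (2 : ℤ) • g' = -g' := by
    have : (2 : ℤ) • g' = (3 : ℤ) • g' - g' := by module
    rw [this, z3', zero_sub]
  have h0 : u % 3 = 0 ∨ u % 3 = 1 ∨ u % 3 = 2 := by omega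
  have h0' : v % 3 = 0 ∨ v % 3 = 1 ∨ v % 3 = 2 := by omega
  have key : u % 3 = 0 ∧ v % 3 = 0 := by
    rcases h0 with a | a | a <;> rcases h0' with b | b | b
    · exact ⟨a, b⟩
    · rw [a, b, zero_smul, one_smul, zero_add] at h
      exact absurd h hg'
    · rw [a, b, zero_smul, t2', zero_add, neg_eq_zero] at h
      exact absurd h hg'
    · rw [a, b, zero_smul, one_smul, add_zero] at h
      exact absurd h hg
    · rw [a, b, one_smul, one_smul] at h
      exact absurd (eq_neg_of_add_eq_zero_right h) hn'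
    · rw [a, b, one_smul, t2'] at h
      exact absurd (add_neg_eq_zero.1 h).symm hn
    · rw [a, b, zero_smul, t2, add_zero, neg_eq_zero] at h
      exact absurd h hg
    · rw [a, b, one_smul, t2] at h
      exact absurd (neg_add_eq_zero.1 h).symm hn
    · rw [a, b, t2, t2'] at h
      have h4 : g' = -g := by
        have h5 : g' = -g - (-g + -g') := by abel
        rw [h5, h, sub_zero]
      exact absurd h4 hn'
  exact ⟨Int.dvd_of_emod_eq_zero key.1, Int.dvd_of_emod_eq_zero key.2⟩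

theorem fun_two {G : Type*} [AddCommGroup G] {r : ℕ} (m : ℕ) (g g' : G) (hg : g ≠ 0)
    (hg' : g' ≠ 0) (h3 : 3 • g = 0) (h3' : 3 • g' = 0) (hn : g' ≠ g) (hn' : g' ≠ -g)
    (Q : Fin r → G) (c d : Fin r → ℤ) (hQ : ∀ i, m • Q i = c i • g + d i • g')
    (n : Fin r → ℤ) (h : ∑ i, n i • Q i = 0) :
    (3 : ℤ) ∣ ∑ i, n i * c i ∧ (3 : ℤ) ∣ ∑ i, n i * d i := by
  apply two_indep hg hg' h3 h3' hn hn'
  have h1 : m • ∑ i, n i • Q i = ∑ i, (n i • (c i • g) + n i • (d i • g')) := by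
    rw [Finset.smul_sum]
    refine Finset.sum_congr rfl fun i _ => ?_
    rw [← smul_add, ← hQ i, smul_comm]
  rw [sum_aux, sum_aux, ← Finset.sum_add_distrib, ← h1, h, smul_zero]

theorem red_pts {W : WeierstrassCurve ℚ} {p : ℕ} [Fact p.Prime] {V : WeierstrassCurve (ZMod p)}
    {f : W.toAffine.Point →+ V.toAffine.Point} (hf : Rdn W p V f) {r : ℕ} {x y : Fin r → ℚ}
    (h : ∀ i, W.toAffine.Nonsingular (x i) (y i)) {a b : Fin r → ZMod p}
    (hx : ∀ i, Cg p (x i) (a i)) (hy : ∀ i, Cg p (y i) (b i)) :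
    ∃ h' : ∀ i, V.toAffine.Nonsingular (a i) (b i),
      ∀ i, f (.some _ _ (h i)) = .some _ _ (h' i) := by
  choose h' e using fun i => hf.red (x i) (y i) (h i) (a i) (b i) (hx i) (hy i)
  exact ⟨h', e⟩

theorem red_one {W : WeierstrassCurve ℚ} {p : ℕ} [Fact p.Prime] {V : WeierstrassCurve (ZMod p)}
    {f : W.toAffine.Point →+ V.toAffine.Point} (hf : Rdn W p V f) {r : ℕ} {x y : Fin r → ℚ}
    (h : ∀ i, W.toAffine.Nonsingular (x i) (y i)) {a b : Fin r → ZMod p}
    (hx : ∀ i, Cg p (x i) (a i)) (hy : ∀ i, Cg p (y i) (b i)) (m : ℕ) (c : Fin r → ℤ)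
    (hk : ∀ h' : ∀ i, V.toAffine.Nonsingular (a i) (b i), ∃ g : V.toAffine.Point, g ≠ 0 ∧
      3 • g = 0 ∧ ∀ i, m • (.some _ _ (h' i) : V.toAffine.Point) = c i • g)
    (n : Fin r → ℤ) (hn : ∑ i, n i • (.some _ _ (h i) : W.toAffine.Point) = 0) :
    (3 : ℤ) ∣ ∑ i, n i * c i := by
  obtain ⟨h', e⟩ := red_pts hf h hx hy
  obtain ⟨g, hg, h3, hQ⟩ := hk h'
  refine fun_one m g hg h3 _ c hQ n ?_
  have h1 := congrArg f hn
  rw [map_sum, map_zero] at h1
  rw [← h1]
  refine Finset.sum_congr rfl fun i _ => ?_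
  rw [map_zsmul, e i]

theorem red_two {W : WeierstrassCurve ℚ} {p : ℕ} [Fact p.Prime] {V : WeierstrassCurve (ZMod p)}
    {f : W.toAffine.Point →+ V.toAffine.Point} (hf : Rdn W p V f) {r : ℕ} {x y : Fin r → ℚ}
    (h : ∀ i, W.toAffine.Nonsingular (x i) (y i)) {a b : Fin r → ZMod p}
    (hx : ∀ i, Cg p (x i) (a i)) (hy : ∀ i, Cg p (y i) (b i)) (m : ℕ) (c d : Fin r → ℤ)
    (hk : ∀ h' : ∀ i, V.toAffine.Nonsingular (a i) (b i), ∃ g g' : V.toAffine.Point, g ≠ 0 ∧
      g' ≠ 0 ∧ 3 • g = 0 ∧ 3 • g' = 0 ∧ g' ≠ g ∧ g' ≠ -g ∧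
      ∀ i, m • (.some _ _ (h' i) : V.toAffine.Point) = c i • g + d i • g')
    (n : Fin r → ℤ) (hn : ∑ i, n i • (.some _ _ (h i) : W.toAffine.Point) = 0) :
    (3 : ℤ) ∣ ∑ i, n i * c i ∧ (3 : ℤ) ∣ ∑ i, n i * d i := by
  obtain ⟨h', e⟩ := red_pts hf h hx hy
  obtain ⟨g, g', hg, hg', h3, h3', k1, k2, hQ⟩ := hk h'
  refine fun_two m g g' hg hg' h3 h3' k1 k2 _ c d hQ n ?_
  have h1 := congrArg f hn
  rw [map_sum, map_zero] at h1
  rw [← h1]
  refine Finset.sum_congr rfl fun i _ => ?_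
  rw [map_zsmul, e i]

/-- the curve `y² = x³ + A x² + B x` -/
def WI (K : Type*) [CommRing K] (A B : ℤ) : WeierstrassCurve K := ⟨0, A, 0, B, 0⟩

theorem WI_Δ (K : Type*) [CommRing K] (A B : ℤ) :
    (WI K A B).Δ = ((16 * B ^ 2 * (A ^ 2 - 4 * B) : ℤ) : K) := by
  simp only [WeierstrassCurve.Δ, WeierstrassCurve.b₂, WeierstrassCurve.b₄, WeierstrassCurve.b₆,
    WeierstrassCurve.b₈, WI]
  push_cast
  ring

theorem WI_rdn (A B : ℤ) (p : ℕ) [Fact p.Prime] (hD : ¬ (p : ℤ) ∣ 2 * B * (A ^ 2 - 4 * B)) :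
    ∃ f, Rdn (WI ℚ A B) p (WI (ZMod p) A B) f := by
  have hp : Prime (p : ℤ) := Nat.prime_iff_prime_int.1 Fact.out
  refine exists_rdn Cg.zero (Cg.of_int _) Cg.zero (Cg.of_int _) Cg.zero ?_
  rw [WI_Δ]
  rw [Ne, ZMod.intCast_zmod_eq_zero_iff_dvd]
  intro h
  apply hD
  have e : 16 * B ^ 2 * (A ^ 2 - 4 * B) = 2 ^ 4 * B ^ 2 * (A ^ 2 - 4 * B) := by ring
  rw [e] at h
  rcases hp.dvd_or_dvd h with h | h
  · rcases hp.dvd_or_dvd h with h | h
    · exact ((hp.dvd_of_dvd_pow h).mul_right _).mul_right _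
    · exact ((hp.dvd_of_dvd_pow h).mul_left _).mul_right _
  · exact h.mul_left _

theorem WI_nonsing (A B : ℤ) (hD : B * (A ^ 2 - 4 * B) ≠ 0) (x y : ℚ)
    (h : y ^ 2 = x ^ 3 + A * x ^ 2 + B * x) : (WI ℚ A B).toAffine.Nonsingular x y := by
  have hΔ : (WI ℚ A B).Δ ≠ 0 := by
    rw [WI_Δ, Int.cast_ne_zero]
    intro h0
    apply hD
    rcases mul_eq_zero.1 h0 with h1 | h1
    · have h2 : B ^ 2 = 0 := by omega
      rw [pow_eq_zero_iff (by norm_num)] at h2
      rw [h2, zero_mul]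
    · rw [h1, mul_zero]
  rw [← Affine.equation_iff_nonsingular_of_Δ_ne_zero hΔ, Affine.equation_iff]
  simp only [WI]
  linear_combination h

/-- a point not killed by `n` modulo `p` has infinite order, if the torsion is killed by `n` -/
theorem inf_of {W : WeierstrassCurve ℚ} {p q : ℕ} [Fact p.Prime] [Fact q.Prime] (hpq : p ≠ q)
    {V : WeierstrassCurve (ZMod p)} {V' : WeierstrassCurve (ZMod q)}
    {f : W.toAffine.Point →+ V.toAffine.Point} {g : W.toAffine.Point →+ V'.toAffine.Point}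
    (hf : Rdn W p V f) (hg : Rdn W q V' g) (h1 : ¬ p ∣ Nat.card V'.toAffine.Point)
    (h2 : ¬ q ∣ Nat.card V.toAffine.Point) {n : ℕ}
    (hn : Nat.gcd (Nat.card V.toAffine.Point) (Nat.card V'.toAffine.Point) ∣ n)
    (P : W.toAffine.Point) (hP : n • f P ≠ 0) : ¬ IsOfFinAddOrder P := by
  intro hfin
  obtain ⟨hF, d1, d2⟩ := torsion_dvd hpq hf hg h1 h2
  have d3 : Nat.card (AddCommGroup.torsion W.toAffine.Point) ∣ n :=
    (Nat.dvd_gcd d1 d2).trans hn
  obtain ⟨c, hc⟩ := d3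
  have e1 : n • (⟨_, hfin⟩ : AddCommGroup.torsion W.toAffine.Point) = 0 := by
    rw [hc, mul_comm, mul_nsmul, card_nsmul_eq_zero']
  have e2 : n • P = 0 := congrArg Subtype.val e1
  apply hP
  rw [← map_nsmul, e2, map_zero]

/-- points congruent to a given one -/
theorem orbit (A B : ℤ) (x0 y0 : ℤ) (h0 : (WI ℚ A B).toAffine.Nonsingular x0 y0)
    (hinf : ¬ IsOfFinAddOrder (Affine.Point.some _ _ h0)) (S : Finset ℕ)
    (hD : ∀ p ∈ S, ¬ (p : ℤ) ∣ 2 * B * (A ^ 2 - 4 * B)) :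
    ∃ x y : ℕ → ℚ, Function.Injective (fun k => (x k, y k)) ∧
      (∀ k, y k ^ 2 = x k ^ 3 + A * x k ^ 2 + B * x k) ∧
      ∀ (p : ℕ) [Fact p.Prime], p ∈ S → ∀ k,
        Cg p (x k) (x0 : ZMod p) ∧ Cg p (y k) (y0 : ZMod p) := by
  classical
  set P : (WI ℚ A B).toAffine.Point := Affine.Point.some _ _ h0 with hPdef
  let N : ℕ → ℕ := fun p => if hp : p.Prime then
    (haveI := Fact.mk hp; Nat.card (WI (ZMod p) A B).toAffine.Point) else 1
  have hN : ∀ (p : ℕ) [Fact p.Prime], N p = Nat.card (WI (ZMod p) A B).toAffine.Point := by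
    intro p hp
    have : p.Prime := hp.out
    simp only [N, this, dif_pos]
  set M : ℕ := ∏ p ∈ S, N p with hM
  have hM0 : M ≠ 0 := by
    rw [hM, Finset.prod_ne_zero_iff]
    intro p _
    by_cases hp : p.Prime
    · have := Fact.mk hp
      rw [hN p]
      exact Nat.card_pos.ne'
    · simp only [N, hp, dif_neg, not_false_eq_true]
      norm_num
  have hinj := injective_nsmul_iff_not_isOfFinAddOrder.2 hinf
  have hex : ∀ k : ℕ, ∃ (x y : ℚ) (h : (WI ℚ A B).toAffine.Nonsingular x y),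
      (1 + k * M) • P = .some x y h := by
    intro k
    have h1 : (1 + k * M) • P ≠ 0 := by
      intro h2
      have h3 : (1 + k * M) • P = (0 : ℕ) • P := by rw [h2, zero_nsmul]
      have h4 := hinj h3
      omega
    generalize (1 + k * M) • P = Q at h1
    cases Q with
    | zero => exact absurd rfl h1
    | some x y h => exact ⟨x, y, h, rfl⟩
  choose x y h hS using hex
  refine ⟨x, y, ?_, ?_, ?_⟩
  · intro j k hjk
    obtain ⟨e1, e2⟩ := Prod.mk.inj hjk
    have e3 : (.some (x j) (y j) (h j) : (WI ℚ A B).toAffine.Point) = .some (x k) (y k) (h k) := by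
      simp only [Affine.Point.some.injEq]
      exact ⟨e1, e2⟩
    rw [← hS j, ← hS k] at e3
    have e4 := hinj e3
    have e5 : j * M = k * M := by omega
    exact Nat.eq_of_mul_eq_mul_right (Nat.pos_of_ne_zero hM0) e5
  · intro k
    have h1 := (h k).1
    rw [Affine.equation_iff] at h1
    simp only [WI] at h1
    linear_combination h1
  · intro p hp hpS k
    obtain ⟨f, hf⟩ := WI_rdn A B p (hD p hpS)
    have hkill : f (.some (x k) (y k) (h k)) = f P := by
      rw [← hS k, add_smul, one_smul, map_add, mul_smul, map_nsmul, map_nsmul]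
      have h1 : N p ∣ M := Finset.dvd_prod_of_mem N hpS
      obtain ⟨c, hc⟩ := h1
      have h2 : M • f P = 0 := by
        rw [hc, hN p, mul_comm, mul_nsmul, card_nsmul_eq_zero']
      rw [h2, nsmul_zero, add_zero]
    obtain ⟨h', e1⟩ := hf.red (x0 : ℚ) (y0 : ℚ) h0 (x0 : ZMod p) (y0 : ZMod p) (Cg.of_int _)
      (Cg.of_int _)
    rw [hPdef, e1] at hkill
    obtain ⟨d1, d2⟩ := hf.int (x k) (y k) (h k)
      (by rw [hkill]; exact Affine.Point.some_ne_zero h')
    obtain ⟨h'', e2⟩ := hf.red (x k) (y k) (h k) _ _ (cg_cast d1) (cg_cast d2)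
    rw [e2] at hkill
    obtain ⟨a1, a2⟩ := Affine.Point.some.inj hkill
    exact ⟨⟨d1, a1⟩, ⟨d2, a2⟩⟩

end Pool.Agent.InfS
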