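import Pool.Agent.InfS.Num4
import Pool.Agent.RkT.Line

/-!
# Torsion group ℤ/4 and rank at least 8: torsion and rank of the curves
-/

set_option autoImplicit false

namespace Pool.Agent.InfS

open WeierstrassCurve Pool.Agent.InfR

theorem m17 {u v w : ℚ} (h : St4 u v w) (n : Fin 8 → ℤ)
    (hn : ∑ i, n i • (.some _ _ (F4_pt h i) : (F4 ℚ (u ^ 2)).toAffine.Point) = 0) :
    (3 : ℤ) ∣ ∑ i, n i * (![0, 1, 1, 0, 1, 2, 0, 2] : Fin 8 → ℤ) i := by
  obtain ⟨f, hf⟩ := F4_rdn (h.u17.pow 2) (by decide +kernel)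
  exact red_one hf (F4_pt h)
    (cgX4 h.u17 h.v17 h.w17 (by decide) (by decide) (by decide) (by decide))
    (cgY4 h.u17 h.v17 h.w17 (by decide) (by decide) (by decide) (by decide))
    8 _ k17 n hn

theorem m41 {u v w : ℚ} (h : St4 u v w) (n : Fin 8 → ℤ)
    (hn : ∑ i, n i • (.some _ _ (F4_pt h i) : (F4 ℚ (u ^ 2)).toAffine.Point) = 0) :
    (3 : ℤ) ∣ ∑ i, n i * (![0, 1, 2, 0, 1, 1, 0, 2] : Fin 8 → ℤ) i := by
  obtain ⟨f, hf⟩ := F4_rdn (h.u41.pow 2) (by decide +kernel)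
  exact red_one hf (F4_pt h)
    (cgX4 h.u41 h.v41 h.w41 (by decide) (by decide) (by decide) (by decide))
    (cgY4 h.u41 h.v41 h.w41 (by decide) (by decide) (by decide) (by decide))
    16 _ k41 n hn

theorem m43 {u v w : ℚ} (h : St4 u v w) (n : Fin 8 → ℤ)
    (hn : ∑ i, n i • (.some _ _ (F4_pt h i) : (F4 ℚ (u ^ 2)).toAffine.Point) = 0) :
    (3 : ℤ) ∣ ∑ i, n i * (![0, 1, 1, 0, 2, 2, 0, 1] : Fin 8 → ℤ) i := by
  obtain ⟨f, hf⟩ := F4_rdn (h.u43.pow 2) (by decide +kernel)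
  exact red_one hf (F4_pt h)
    (cgX4 h.u43 h.v43 h.w43 (by decide) (by decide) (by decide) (by decide))
    (cgY4 h.u43 h.v43 h.w43 (by decide) (by decide) (by decide) (by decide))
    16 _ k43 n hn

theorem m47 {u v w : ℚ} (h : St4 u v w) (n : Fin 8 → ℤ)
    (hn : ∑ i, n i • (.some _ _ (F4_pt h i) : (F4 ℚ (u ^ 2)).toAffine.Point) = 0) :
    (3 : ℤ) ∣ ∑ i, n i * (![1, 1, 2, 1, 0, 1, 0, 1] : Fin 8 → ℤ) i := by
  obtain ⟨f, hf⟩ := F4_rdn (h.u47.pow 2) (by decide +kernel)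
  exact red_one hf (F4_pt h)
    (cgX4 h.u47 h.v47 h.w47 (by decide) (by decide) (by decide) (by decide))
    (cgY4 h.u47 h.v47 h.w47 (by decide) (by decide) (by decide) (by decide))
    20 _ k47 n hn

theorem m61 {u v w : ℚ} (h : St4 u v w) (n : Fin 8 → ℤ)
    (hn : ∑ i, n i • (.some _ _ (F4_pt h i) : (F4 ℚ (u ^ 2)).toAffine.Point) = 0) :
    (3 : ℤ) ∣ ∑ i, n i * (![1, 2, 0, 0, 2, 0, 1, 1] : Fin 8 → ℤ) i := by
  obtain ⟨f, hf⟩ := F4_rdn (h.u61.pow 2) (by decide +kernel)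
  exact red_one hf (F4_pt h)
    (cgX4 h.u61 h.v61 h.w61 (by decide) (by decide) (by decide) (by decide))
    (cgY4 h.u61 h.v61 h.w61 (by decide) (by decide) (by decide) (by decide))
    24 _ k61 n hn

theorem m67 {u v w : ℚ} (h : St4 u v w) (n : Fin 8 → ℤ)
    (hn : ∑ i, n i • (.some _ _ (F4_pt h i) : (F4 ℚ (u ^ 2)).toAffine.Point) = 0) :
    (3 : ℤ) ∣ ∑ i, n i * (![1, 2, 0, 0, 2, 1, 2, 0] : Fin 8 → ℤ) i ∧
      (3 : ℤ) ∣ ∑ i, n i * (![0, 0, 1, 0, 2, 2, 2, 1] : Fin 8 → ℤ) i := by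
  obtain ⟨f, hf⟩ := F4_rdn (h.u67.pow 2) (by decide +kernel)
  exact red_two hf (F4_pt h)
    (cgX4 h.u67 h.v67 h.w67 (by decide) (by decide) (by decide) (by decide))
    (cgY4 h.u67 h.v67 h.w67 (by decide) (by decide) (by decide) (by decide))
    8 _ _ k67 n hn

theorem m83 {u v w : ℚ} (h : St4 u v w) (n : Fin 8 → ℤ)
    (hn : ∑ i, n i • (.some _ _ (F4_pt h i) : (F4 ℚ (u ^ 2)).toAffine.Point) = 0) :
    (3 : ℤ) ∣ ∑ i, n i * (![0, 1, 2, 2, 1, 0, 1, 1] : Fin 8 → ℤ) i := by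
  obtain ⟨f, hf⟩ := F4_rdn (h.u83.pow 2) (by decide +kernel)
  exact red_one hf (F4_pt h)
    (cgX4 h.u83 h.v83 h.w83 (by decide) (by decide) (by decide) (by decide))
    (cgY4 h.u83 h.v83 h.w83 (by decide) (by decide) (by decide) (by decide))
    32 _ k83 n hn

theorem n_dvd {u v w : ℚ} (h : St4 u v w) (n : Fin 8 → ℤ)
    (hn : ∑ i, n i • (.some _ _ (F4_pt h i) : (F4 ℚ (u ^ 2)).toAffine.Point) = 0) :
    ∀ i, (3 : ℤ) ∣ n i := by
  have h17 := m17 h n hn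
  have h41 := m41 h n hn
  have h43 := m43 h n hn
  have h47 := m47 h n hn
  have h61 := m61 h n hn
  have h67 := m67 h n hn
  have h83 := m83 h n hn
  have g0 : (3 : ℤ) ∣ n 1 + n 2 + n 4 + n 5 * 2 + n 7 * 2 := by
    have e := h17
    rw [Fin.sum_univ_eight] at e
    simp at e
    omega
  have g1 : (3 : ℤ) ∣ n 1 + n 2 * 2 + n 4 + n 5 + n 7 * 2 := by
    have e := h41
    rw [Fin.sum_univ_eight] at e
    simp at e
    omega
  have g2 : (3 : ℤ) ∣ n 1 + n 2 + n 4 * 2 + n 5 * 2 + n 7 := by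
    have e := h43
    rw [Fin.sum_univ_eight] at e
    simp at e
    omega
  have g3 : (3 : ℤ) ∣ n 0 + n 1 + n 2 * 2 + n 3 + n 5 + n 7 := by
    have e := h47
    rw [Fin.sum_univ_eight] at e
    simp at e
    omega
  have g4 : (3 : ℤ) ∣ n 0 + n 1 * 2 + n 4 * 2 + n 6 + n 7 := by
    have e := h61
    rw [Fin.sum_univ_eight] at e
    simp at e
    omega
  have g5 : (3 : ℤ) ∣ n 0 + n 1 * 2 + n 4 * 2 + n 5 + n 6 * 2 := by
    have e := h67.1
    rw [Fin.sum_univ_eight] at e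
    simp at e
    omega
  have g6 : (3 : ℤ) ∣ n 2 + n 4 * 2 + n 5 * 2 + n 6 * 2 + n 7 := by
    have e := h67.2
    rw [Fin.sum_univ_eight] at e
    simp at e
    omega
  have g7 : (3 : ℤ) ∣ n 1 + n 2 * 2 + n 3 * 2 + n 4 + n 6 + n 7 := by
    have e := h83
    rw [Fin.sum_univ_eight] at e
    simp at e
    omega
  intro i
  fin_cases i
  · show (3 : ℤ) ∣ n 0
    omega
  · show (3 : ℤ) ∣ n 1
    omega
  · show (3 : ℤ) ∣ n 2
    omega
  · show (3 : ℤ) ∣ n 3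
    omega
  · show (3 : ℤ) ∣ n 4
    omega
  · show (3 : ℤ) ∣ n 5
    omega
  · show (3 : ℤ) ∣ n 6
    omega
  · show (3 : ℤ) ∣ n 7
    omega

theorem F4_torp {u v w : ℚ} (h : St4 u v w) : (F4 ℚ (u ^ 2)).toAffine.Nonsingular
    (-5 * ((u ^ 2 - 4) * (9 * u ^ 2 - 4))) (20 * (u ^ 2 + 5) * ((u ^ 2 - 4) * (9 * u ^ 2 - 4))) := by
  refine F4_ns h ?_
  ring

theorem F4_zero {u v w : ℚ} (h : St4 u v w) : (F4 ℚ (u ^ 2)).toAffine.Nonsingular 0 0 := by
  refine F4_ns h ?_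
  ring

theorem two_tor {u v w : ℚ} (h : St4 u v w) :
    2 • (Affine.Point.some _ _ (F4_torp h) : (F4 ℚ (u ^ 2)).toAffine.Point) =
      Affine.Point.some _ _ (F4_zero h) := by
  have h1 : (Affine.Point.some _ _ (F4_torp h) : (F4 ℚ (u ^ 2)).toAffine.Point) +
      Affine.Point.some _ _ (F4_torp h) + Affine.Point.some _ _ (F4_zero h) = 0 := by
    refine RkT.line_sum (l := -4 * (u ^ 2 + 5)) (n := 0) _ _ _ ?_ ?_ ?_ ⟨?_, ?_, ?_⟩
    · ring
    · ring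
    · ring
    · simp only [F4]
      ring
    · simp only [F4]
      ring
    · simp only [F4]
      ring
  have h2 : (Affine.Point.some _ _ (F4_zero h) : (F4 ℚ (u ^ 2)).toAffine.Point) +
      Affine.Point.some _ _ (F4_zero h) = 0 := by
    refine Affine.Point.add_of_Y_eq rfl ?_
    simp [Affine.negY, F4]
  rw [two_nsmul, eq_neg_of_add_eq_zero_left h1, neg_eq_of_add_eq_zero_left h2]

theorem four_tor {u v w : ℚ} (h : St4 u v w) :
    addOrderOf (Affine.Point.some _ _ (F4_torp h) : (F4 ℚ (u ^ 2)).toAffine.Point) = 4 := by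
  have h2 : (Affine.Point.some _ _ (F4_zero h) : (F4 ℚ (u ^ 2)).toAffine.Point) +
      Affine.Point.some _ _ (F4_zero h) = 0 := by
    refine Affine.Point.add_of_Y_eq rfl ?_
    simp [Affine.negY, F4]
  have : Fact (Nat.Prime 2) := ⟨Nat.prime_two⟩
  have e : (4 : ℕ) = 2 ^ (1 + 1) := rfl
  rw [e]
  refine addOrderOf_eq_prime_pow ?_ ?_
  · rw [pow_one, two_tor h]
    exact Affine.Point.some_ne_zero _
  · have e4 : (2 : ℕ) ^ (1 + 1) = 2 * 2 := rfl
    rw [e4, mul_nsmul, two_tor h, two_nsmul, h2]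

theorem tor_card {u v w : ℚ} (h : St4 u v w) :
    Finite (AddCommGroup.torsion (F4 ℚ (u ^ 2)).toAffine.Point) ∧
      Nat.card (AddCommGroup.torsion (F4 ℚ (u ^ 2)).toAffine.Point) ∣ 4 := by
  obtain ⟨f, hf⟩ := F4_rdn (h.u71.pow 2) (by decide +kernel)
  obtain ⟨g, hg⟩ := F4_rdn (h.u47.pow 2) (by decide +kernel)
  obtain ⟨h1, h2, h3⟩ := torsion_dvd (by norm_num) hf hg (by rw [card47]; norm_num)
    (by rw [card71]; norm_num)
  rw [card71] at h2
  rw [card47] at h3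
  exact ⟨h1, Nat.dvd_gcd h2 h3⟩

theorem tor4 {u v w : ℚ} (h : St4 u v w) :
    Nonempty (AddCommGroup.torsion (F4 ℚ (u ^ 2)).toAffine.Point ≃+ ZMod 4) := by
  obtain ⟨hF, hd⟩ := tor_card h
  set T : AddCommGroup.torsion (F4 ℚ (u ^ 2)).toAffine.Point :=
    ⟨Affine.Point.some _ _ (F4_torp h), by
      rw [AddCommGroup.mem_torsion, ← addOrderOf_pos_iff, four_tor h]
      norm_num⟩ with hT
  have hTo : addOrderOf T = 4 := by
    rw [← four_tor h]
    exact addOrderOf_injective (AddCommGroup.torsion (F4 ℚ (u ^ 2)).toAffine.Point).subtype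
      Subtype.val_injective T |>.symm
  have hc : Nat.card (AddCommGroup.torsion (F4 ℚ (u ^ 2)).toAffine.Point) = 4 := by
    have h1 := addOrderOf_dvd_natCard T
    rw [hTo] at h1
    exact Nat.dvd_antisymm hd h1
  have hcyc : IsAddCyclic (AddCommGroup.torsion (F4 ℚ (u ^ 2)).toAffine.Point) :=
    isAddCyclic_of_addOrderOf_eq_card T (by rw [hTo, hc])
  exact ⟨(zmodAddCyclicAddEquiv hcyc).symm.trans (ZMod.ringEquivCongr hc).toAddEquiv⟩

theorem tor_three {u v w : ℚ} (h : St4 u v w) (x : (F4 ℚ (u ^ 2)).toAffine.Point)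
    (hx : 3 • x = 0) : x = 0 := by
  obtain ⟨hF, hd⟩ := tor_card h
  obtain ⟨c, hc⟩ := hd
  have hfin : IsOfFinAddOrder x := isOfFinAddOrder_iff_nsmul_eq_zero.2 ⟨3, by norm_num, hx⟩
  have e1 : 4 • (⟨x, hfin⟩ : AddCommGroup.torsion (F4 ℚ (u ^ 2)).toAffine.Point) = 0 := by
    rw [hc, mul_nsmul, card_nsmul_eq_zero', nsmul_zero]
  have e2 : 4 • x = 0 := congrArg Subtype.val e1
  have e3 : x = 4 • x - 3 • x := by
    have : 4 • x = 3 • x + x := succ_nsmul x 3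
    rw [this]
    abel
  rw [e3, e2, hx, sub_zero]

theorem rank4 {u v w : ℚ} (h : St4 u v w) :
    8 ≤ Module.rank ℤ (F4 ℚ (u ^ 2)).toAffine.Point := by
  have : Fact (Nat.Prime 3) := ⟨Nat.prime_three⟩
  have hli : LinearIndependent ℤ
      (fun i : Fin 8 => (.some _ _ (F4_pt h i) : (F4 ℚ (u ^ 2)).toAffine.Point)) := by
    refine indep 3 _ (fun i : Fin 0 => i.elim0) ?_ ?_
    · intro x hx
      refine ⟨fun i => i.elim0, ?_⟩
      rw [tor_three h x hx]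
      simp
    · intro n c hrel
      rw [Fin.sum_univ_zero, add_zero] at hrel
      exact ⟨n_dvd h n hrel, fun i => i.elim0⟩
  have h1 := hli.cardinal_le_rank
  rw [Cardinal.mk_fin] at h1
  exact_mod_cast h1

end Pool.Agent.InfS
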