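import Pool.Agent.InfS.T4

/-!
# Torsion group ℤ/4 and rank at least 8: computations over small prime fields
-/

set_option autoImplicit false

namespace Pool.Agent.InfS

open WeierstrassCurve Pool.Agent.InfR

theorem card_aux {p : ℕ} [Fact p.Prime] (V : WeierstrassCurve (ZMod p)) (N : ℕ)
    (h : ((Finset.univ : Finset (ZMod p × ZMod p)).filter (fun xy =>
      (xy.2 ^ 2 + V.a₁ * xy.1 * xy.2 + V.a₃ * xy.2 =
        xy.1 ^ 3 + V.a₂ * xy.1 ^ 2 + V.a₄ * xy.1 + V.a₆) ∧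
      (V.a₁ * xy.2 ≠ 3 * xy.1 ^ 2 + 2 * V.a₂ * xy.1 + V.a₄ ∨
        xy.2 ≠ -xy.2 - V.a₁ * xy.1 - V.a₃))).card + 1 = N) :
    Nat.card V.toAffine.Point = N := by
  let e : V.toAffine.Point ≃ Option {xy : ZMod p × ZMod p // V.toAffine.Nonsingular xy.1 xy.2} :=
    { toFun := fun P => match P with
        | .zero => none
        | .some x y h => some ⟨(x, y), h⟩
      invFun := fun q => match q with
        | none => .zero
        | some a => .some a.1.1 a.1.2 a.2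
      left_inv := by
        intro P
        cases P <;> rfl
      right_inv := by
        intro q
        cases q <;> rfl }
  rw [Nat.card_congr e, Finite.card_option, ← h]
  congr 1
  refine Nat.subtype_card _ ?_
  intro xy
  rw [Affine.nonsingular_iff, Affine.equation_iff, Finset.mem_filter]
  exact ⟨fun h1 => h1.2, fun h1 => ⟨Finset.mem_univ _, h1⟩⟩

private theorem ns17 (i : Fin 8) : (F4 (ZMod 17) (16 ^ 2)).toAffine.Nonsingular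
    (X4 16 13 13 i) (Y4 16 13 13 i) := by
  rw [Affine.nonsingular_iff, Affine.equation_iff]
  revert i
  decide +kernel

theorem k17 (h' : ∀ i, (F4 (ZMod 17) (16 ^ 2)).toAffine.Nonsingular (X4 16 13 13 i)
    (Y4 16 13 13 i)) : ∃ g : (F4 (ZMod 17) (16 ^ 2)).toAffine.Point, g ≠ 0 ∧ 3 • g = 0 ∧
      ∀ i, 8 • (.some _ _ (h' i) : (F4 (ZMod 17) (16 ^ 2)).toAffine.Point) =
        (![0, 1, 1, 0, 1, 2, 0, 2] : Fin 8 → ℤ) i • g := by
  have key : 8 • (.some _ _ (ns17 1) : (F4 (ZMod 17) (16 ^ 2)).toAffine.Point) ≠ 0 ∧ 3 • (8 • (.some _ _ (ns17 1) : (F4 (ZMod 17) (16 ^ 2)).toAffine.Point)) = 0 ∧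
      ∀ i, 8 • (.some _ _ (ns17 i) : (F4 (ZMod 17) (16 ^ 2)).toAffine.Point) =
        (![0, 1, 1, 0, 1, 2, 0, 2] : Fin 8 → ℤ) i • (8 • (.some _ _ (ns17 1) : (F4 (ZMod 17) (16 ^ 2)).toAffine.Point)) := by
    decide +kernel
  exact ⟨_, key⟩

private theorem ns41 (i : Fin 8) : (F4 (ZMod 41) (11 ^ 2)).toAffine.Nonsingular
    (X4 11 26 20 i) (Y4 11 26 20 i) := by
  rw [Affine.nonsingular_iff, Affine.equation_iff]
  revert i
  decide +kernel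

theorem k41 (h' : ∀ i, (F4 (ZMod 41) (11 ^ 2)).toAffine.Nonsingular (X4 11 26 20 i)
    (Y4 11 26 20 i)) : ∃ g : (F4 (ZMod 41) (11 ^ 2)).toAffine.Point, g ≠ 0 ∧ 3 • g = 0 ∧
      ∀ i, 16 • (.some _ _ (h' i) : (F4 (ZMod 41) (11 ^ 2)).toAffine.Point) =
        (![0, 1, 2, 0, 1, 1, 0, 2] : Fin 8 → ℤ) i • g := by
  have key : 16 • (.some _ _ (ns41 1) : (F4 (ZMod 41) (11 ^ 2)).toAffine.Point) ≠ 0 ∧ 3 • (16 • (.some _ _ (ns41 1) : (F4 (ZMod 41) (11 ^ 2)).toAffine.Point)) = 0 ∧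
      ∀ i, 16 • (.some _ _ (ns41 i) : (F4 (ZMod 41) (11 ^ 2)).toAffine.Point) =
        (![0, 1, 2, 0, 1, 1, 0, 2] : Fin 8 → ℤ) i • (16 • (.some _ _ (ns41 1) : (F4 (ZMod 41) (11 ^ 2)).toAffine.Point)) := by
    decide +kernel
  exact ⟨_, key⟩

private theorem ns43 (i : Fin 8) : (F4 (ZMod 43) (24 ^ 2)).toAffine.Nonsingular
    (X4 24 31 22 i) (Y4 24 31 22 i) := by
  rw [Affine.nonsingular_iff, Affine.equation_iff]
  revert i
  decide +kernel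

theorem k43 (h' : ∀ i, (F4 (ZMod 43) (24 ^ 2)).toAffine.Nonsingular (X4 24 31 22 i)
    (Y4 24 31 22 i)) : ∃ g : (F4 (ZMod 43) (24 ^ 2)).toAffine.Point, g ≠ 0 ∧ 3 • g = 0 ∧
      ∀ i, 16 • (.some _ _ (h' i) : (F4 (ZMod 43) (24 ^ 2)).toAffine.Point) =
        (![0, 1, 1, 0, 2, 2, 0, 1] : Fin 8 → ℤ) i • g := by
  have key : 16 • (.some _ _ (ns43 1) : (F4 (ZMod 43) (24 ^ 2)).toAffine.Point) ≠ 0 ∧ 3 • (16 • (.some _ _ (ns43 1) : (F4 (ZMod 43) (24 ^ 2)).toAffine.Point)) = 0 ∧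
      ∀ i, 16 • (.some _ _ (ns43 i) : (F4 (ZMod 43) (24 ^ 2)).toAffine.Point) =
        (![0, 1, 1, 0, 2, 2, 0, 1] : Fin 8 → ℤ) i • (16 • (.some _ _ (ns43 1) : (F4 (ZMod 43) (24 ^ 2)).toAffine.Point)) := by
    decide +kernel
  exact ⟨_, key⟩

private theorem ns47 (i : Fin 8) : (F4 (ZMod 47) (34 ^ 2)).toAffine.Nonsingular
    (X4 34 14 29 i) (Y4 34 14 29 i) := by
  rw [Affine.nonsingular_iff, Affine.equation_iff]
  revert i
  decide +kernel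

theorem k47 (h' : ∀ i, (F4 (ZMod 47) (34 ^ 2)).toAffine.Nonsingular (X4 34 14 29 i)
    (Y4 34 14 29 i)) : ∃ g : (F4 (ZMod 47) (34 ^ 2)).toAffine.Point, g ≠ 0 ∧ 3 • g = 0 ∧
      ∀ i, 20 • (.some _ _ (h' i) : (F4 (ZMod 47) (34 ^ 2)).toAffine.Point) =
        (![1, 1, 2, 1, 0, 1, 0, 1] : Fin 8 → ℤ) i • g := by
  have key : 20 • (.some _ _ (ns47 0) : (F4 (ZMod 47) (34 ^ 2)).toAffine.Point) ≠ 0 ∧ 3 • (20 • (.some _ _ (ns47 0) : (F4 (ZMod 47) (34 ^ 2)).toAffine.Point)) = 0 ∧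
      ∀ i, 20 • (.some _ _ (ns47 i) : (F4 (ZMod 47) (34 ^ 2)).toAffine.Point) =
        (![1, 1, 2, 1, 0, 1, 0, 1] : Fin 8 → ℤ) i • (20 • (.some _ _ (ns47 0) : (F4 (ZMod 47) (34 ^ 2)).toAffine.Point)) := by
    decide +kernel
  exact ⟨_, key⟩

private theorem ns61 (i : Fin 8) : (F4 (ZMod 61) (12 ^ 2)).toAffine.Nonsingular
    (X4 12 10 18 i) (Y4 12 10 18 i) := by
  rw [Affine.nonsingular_iff, Affine.equation_iff]
  revert i
  decide +kernel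

theorem k61 (h' : ∀ i, (F4 (ZMod 61) (12 ^ 2)).toAffine.Nonsingular (X4 12 10 18 i)
    (Y4 12 10 18 i)) : ∃ g : (F4 (ZMod 61) (12 ^ 2)).toAffine.Point, g ≠ 0 ∧ 3 • g = 0 ∧
      ∀ i, 24 • (.some _ _ (h' i) : (F4 (ZMod 61) (12 ^ 2)).toAffine.Point) =
        (![1, 2, 0, 0, 2, 0, 1, 1] : Fin 8 → ℤ) i • g := by
  have key : 24 • (.some _ _ (ns61 0) : (F4 (ZMod 61) (12 ^ 2)).toAffine.Point) ≠ 0 ∧ 3 • (24 • (.some _ _ (ns61 0) : (F4 (ZMod 61) (12 ^ 2)).toAffine.Point)) = 0 ∧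
      ∀ i, 24 • (.some _ _ (ns61 i) : (F4 (ZMod 61) (12 ^ 2)).toAffine.Point) =
        (![1, 2, 0, 0, 2, 0, 1, 1] : Fin 8 → ℤ) i • (24 • (.some _ _ (ns61 0) : (F4 (ZMod 61) (12 ^ 2)).toAffine.Point)) := by
    decide +kernel
  exact ⟨_, key⟩

private theorem ns67 (i : Fin 8) : (F4 (ZMod 67) (10 ^ 2)).toAffine.Nonsingular
    (X4 10 62 55 i) (Y4 10 62 55 i) := by
  rw [Affine.nonsingular_iff, Affine.equation_iff]
  revert i
  decide +kernel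

private theorem kc67 : ∃ g g' : (F4 (ZMod 67) (10 ^ 2)).toAffine.Point, g ≠ 0 ∧ g' ≠ 0 ∧
      3 • g = 0 ∧ 3 • g' = 0 ∧ g' ≠ g ∧ g' ≠ -g ∧
      ∀ i, 8 • (.some _ _ (ns67 i) : (F4 (ZMod 67) (10 ^ 2)).toAffine.Point) =
        (![1, 2, 0, 0, 2, 1, 2, 0] : Fin 8 → ℤ) i • g + (![0, 0, 1, 0, 2, 2, 2, 1] : Fin 8 → ℤ) i • g' :=
  ⟨8 • (.some _ _ (ns67 0) : (F4 (ZMod 67) (10 ^ 2)).toAffine.Point), 8 • (.some _ _ (ns67 2) : (F4 (ZMod 67) (10 ^ 2)).toAffine.Point), by decide +kernel⟩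

theorem k67 (h' : ∀ i, (F4 (ZMod 67) (10 ^ 2)).toAffine.Nonsingular (X4 10 62 55 i)
    (Y4 10 62 55 i)) : ∃ g g' : (F4 (ZMod 67) (10 ^ 2)).toAffine.Point, g ≠ 0 ∧ g' ≠ 0 ∧
      3 • g = 0 ∧ 3 • g' = 0 ∧ g' ≠ g ∧ g' ≠ -g ∧
      ∀ i, 8 • (.some _ _ (h' i) : (F4 (ZMod 67) (10 ^ 2)).toAffine.Point) =
        (![1, 2, 0, 0, 2, 1, 2, 0] : Fin 8 → ℤ) i • g + (![0, 0, 1, 0, 2, 2, 2, 1] : Fin 8 → ℤ) i • g' := kc67

private theorem ns83 (i : Fin 8) : (F4 (ZMod 83) (6 ^ 2)).toAffine.Nonsingular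
    (X4 6 44 65 i) (Y4 6 44 65 i) := by
  rw [Affine.nonsingular_iff, Affine.equation_iff]
  revert i
  decide +kernel

theorem k83 (h' : ∀ i, (F4 (ZMod 83) (6 ^ 2)).toAffine.Nonsingular (X4 6 44 65 i)
    (Y4 6 44 65 i)) : ∃ g : (F4 (ZMod 83) (6 ^ 2)).toAffine.Point, g ≠ 0 ∧ 3 • g = 0 ∧
      ∀ i, 32 • (.some _ _ (h' i) : (F4 (ZMod 83) (6 ^ 2)).toAffine.Point) =
        (![0, 1, 2, 2, 1, 0, 1, 1] : Fin 8 → ℤ) i • g := by
  have key : 32 • (.some _ _ (ns83 1) : (F4 (ZMod 83) (6 ^ 2)).toAffine.Point) ≠ 0 ∧ 3 • (32 • (.some _ _ (ns83 1) : (F4 (ZMod 83) (6 ^ 2)).toAffine.Point)) = 0 ∧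
      ∀ i, 32 • (.some _ _ (ns83 i) : (F4 (ZMod 83) (6 ^ 2)).toAffine.Point) =
        (![0, 1, 2, 2, 1, 0, 1, 1] : Fin 8 → ℤ) i • (32 • (.some _ _ (ns83 1) : (F4 (ZMod 83) (6 ^ 2)).toAffine.Point)) := by
    decide +kernel
  exact ⟨_, key⟩

theorem card47 : Nat.card (F4 (ZMod 47) (34 ^ 2)).toAffine.Point = 60 :=
  card_aux _ _ (by decide +kernel)

theorem card71 : Nat.card (F4 (ZMod 71) (16 ^ 2)).toAffine.Point = 88 :=
  card_aux _ _ (by decide +kernel)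

theorem cardE17 : Nat.card (WI (ZMod 17) 107119 (-6587094800)).toAffine.Point = 24 :=
  card_aux _ _ (by decide +kernel)

theorem cardE23 : Nat.card (WI (ZMod 23) 107119 (-6587094800)).toAffine.Point = 32 :=
  card_aux _ _ (by decide +kernel)

private theorem nsE : (WI (ZMod 23) 107119 (-6587094800)).toAffine.Nonsingular
    ((-35280 : ℤ) : ZMod 23) ((17939040 : ℤ) : ZMod 23) := by
  rw [Affine.nonsingular_iff, Affine.equation_iff]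
  decide +kernel

theorem kE (h : (WI (ZMod 23) 107119 (-6587094800)).toAffine.Nonsingular
    ((-35280 : ℤ) : ZMod 23) ((17939040 : ℤ) : ZMod 23)) :
    8 • (.some _ _ h : (WI (ZMod 23) 107119 (-6587094800)).toAffine.Point) ≠ 0 := by
  have key : 8 • (.some _ _ nsE : (WI (ZMod 23) 107119 (-6587094800)).toAffine.Point) ≠ 0 := by
    decide +kernel
  exact key

end Pool.Agent.InfS
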