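import Pool.Agent.InfS.Gen

/-!
# Torsion group ℤ/4 and rank at least 8: the curve and its eight points

`F4 K a : y² = x (x² + (106 a² - 240 a + 560) x + 25 ((a - 4)(9 a - 4))²)`, `a = u²`, `v² = 1160 - 209 u²`,
`w² = 130 u² + 209` (a curve of genus one).  The points are `(X4 u v w i, Y4 u v w i)`.
-/

set_option autoImplicit false

namespace Pool.Agent.InfS

open WeierstrassCurve Pool.Agent.InfR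

/-- `y² = x (x² + (106a² - 240a + 560) x + 25 ((a-4)(9a-4))²)` -/
def F4 (K : Type*) [Field K] (a : K) : WeierstrassCurve K :=
  ⟨0, 106 * a ^ 2 - 240 * a + 560, 0, 25 * ((a - 4) * (9 * a - 4)) ^ 2, 0⟩

/-- the abscissas of the eight points -/
def X4 {K : Type*} [Field K] (u v _w : K) : Fin 8 → K :=
  ![25 * ((u ^ 2 - 4) * (9 * u ^ 2 - 4)) / 16,
    -(25 * ((u ^ 2 - 4) * (9 * u ^ 2 - 4))) / 9,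
    -(9 * (u ^ 2 - 4) ^ 2 * (9 * u ^ 2 - 4)) / u ^ 2,
    -((u ^ 2 - 4) * (9 * u ^ 2 - 4) ^ 2) / u ^ 2,
    -(25 * (u ^ 2 - 4) ^ 2 * (9 * u ^ 2 - 4)) / (9 * u ^ 2),
    729 * (9 * u ^ 2 - 4) ^ 2 * (u ^ 2 - 4) / v ^ 2,
    2401 * (9 * u ^ 2 - 4) * (u ^ 2 - 4) ^ 2 / v ^ 2,
    225 * (9 * u ^ 2 - 4) ^ 2 * (u ^ 2 - 4) / v ^ 2]

/-- the ordinates of the eight points -/
def Y4 {K : Type*} [Field K] (u v w : K) : Fin 8 → K :=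
  ![25 * ((u ^ 2 - 4) * (9 * u ^ 2 - 4)) * (65 * u ^ 2 - 116) / 64,
    100 * ((u ^ 2 - 4) * (9 * u ^ 2 - 4)) * w / 27,
    -(24 * (u ^ 2 - 4) ^ 2 * (9 * u ^ 2 - 4) * (8 * u ^ 2 - 9)) / u ^ 3,
    -(8 * (u ^ 2 - 4) * (9 * u ^ 2 - 4) ^ 2 * (2 * u ^ 2 + 1)) / u ^ 3,
    -(200 * (u ^ 2 - 4) ^ 2 * (9 * u ^ 2 - 4) * (u ^ 2 + 5)) / (27 * u ^ 3),
    216 * (9 * u ^ 2 - 4) ^ 2 * (u ^ 2 - 4) * (151 - 58 * u ^ 2) * w / v ^ 3,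
    392 * (9 * u ^ 2 - 4) * (u ^ 2 - 4) ^ 2 * (281 - 32 * u ^ 2) * w / v ^ 3,
    600 * (9 * u ^ 2 - 4) ^ 2 * (u ^ 2 - 4) * (u ^ 2 + 5) * w / v ^ 3]

instance fact17 : Fact (Nat.Prime 17) := ⟨by norm_num⟩
instance fact41 : Fact (Nat.Prime 41) := ⟨by norm_num⟩
instance fact43 : Fact (Nat.Prime 43) := ⟨by norm_num⟩
instance fact47 : Fact (Nat.Prime 47) := ⟨by norm_num⟩
instance fact61 : Fact (Nat.Prime 61) := ⟨by norm_num⟩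
instance fact67 : Fact (Nat.Prime 67) := ⟨by norm_num⟩
instance fact71 : Fact (Nat.Prime 71) := ⟨by norm_num⟩
instance fact83 : Fact (Nat.Prime 83) := ⟨by norm_num⟩
instance fact23 : Fact (Nat.Prime 23) := ⟨by norm_num⟩

/-- the equations of the base curve and the residues -/
structure St4 (u v w : ℚ) : Prop where
  e1 : v ^ 2 = 1160 - 209 * u ^ 2
  e2 : w ^ 2 = 130 * u ^ 2 + 209
  u17 : Cg 17 u 16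
  v17 : Cg 17 v 13
  w17 : Cg 17 w 13
  u41 : Cg 41 u 11
  v41 : Cg 41 v 26
  w41 : Cg 41 w 20
  u43 : Cg 43 u 24
  v43 : Cg 43 v 31
  w43 : Cg 43 w 22
  u47 : Cg 47 u 34
  v47 : Cg 47 v 14
  w47 : Cg 47 w 29
  u61 : Cg 61 u 12
  v61 : Cg 61 v 10
  w61 : Cg 61 w 18
  u67 : Cg 67 u 10
  v67 : Cg 67 v 62
  w67 : Cg 67 w 55
  u71 : Cg 71 u 16
  v71 : Cg 71 v 14
  w71 : Cg 71 w 30
  u83 : Cg 83 u 6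
  v83 : Cg 83 v 44
  w83 : Cg 83 w 65

theorem F4_Δ (a : ℚ) : (F4 ℚ a).Δ =
    640000 * ((a - 4) * (9 * a - 4)) ^ 4 * (a + 5) ^ 2 * (49 * a ^ 2 - 160 * a + 180) := by
  simp only [WeierstrassCurve.Δ, WeierstrassCurve.b₂, WeierstrassCurve.b₄, WeierstrassCurve.b₆,
    WeierstrassCurve.b₈, F4]
  ring

/-- the nonvanishing of the factors -/
structure NZ4 (u v : ℚ) : Prop where
  nu : u ≠ 0
  nv : v ≠ 0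
  n1 : u ^ 2 - 4 ≠ 0
  n2 : 9 * u ^ 2 - 4 ≠ 0

theorem nz4 {u v w : ℚ} (h : St4 u v w) : NZ4 u v := by
  have hu := h.u17
  have hv := h.v17
  constructor
  · exact hu.ne_zero (by decide)
  · exact hv.ne_zero (by decide)
  · exact ((hu.pow 2).sub (Cg.ofNat 4)).ne_zero (by decide)
  · exact (((Cg.ofNat 9).mul (hu.pow 2)).sub (Cg.ofNat 4)).ne_zero (by decide)

theorem F4_ell {u v w : ℚ} (h : St4 u v w) : (F4 ℚ (u ^ 2)).Δ ≠ 0 := by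
  have n := nz4 h
  rw [F4_Δ]
  have h1 : (0 : ℚ) < u ^ 2 + 5 := by positivity
  have h2 : (0 : ℚ) < 49 * (u ^ 2) ^ 2 - 160 * u ^ 2 + 180 := by
    nlinarith [sq_nonneg (49 * u ^ 2 - 80)]
  exact mul_ne_zero (mul_ne_zero (mul_ne_zero (by norm_num)
    (pow_ne_zero _ (mul_ne_zero n.n1 n.n2))) (pow_ne_zero _ h1.ne')) h2.ne'

theorem F4_ns {u v w : ℚ} (h : St4 u v w) {x y : ℚ}
    (he : y ^ 2 = x * (x ^ 2 + (106 * (u ^ 2) ^ 2 - 240 * u ^ 2 + 560) * x +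
      25 * ((u ^ 2 - 4) * (9 * u ^ 2 - 4)) ^ 2)) :
    (F4 ℚ (u ^ 2)).toAffine.Nonsingular x y := by
  rw [← Affine.equation_iff_nonsingular_of_Δ_ne_zero (F4_ell h), Affine.equation_iff]
  simp only [F4]
  linear_combination he

theorem frac (N M D A B E : ℚ) (hD : D ≠ 0) (h : N ^ 2 * E = M * (M ^ 2 + A * M * D + B * D ^ 2)) :
    N ^ 2 * E / D ^ 3 = M / D * ((M / D) ^ 2 + A * (M / D) + B) := by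
  field_simp
  linear_combination h

theorem F4_p0 {u v w : ℚ} (h : St4 u v w) : (F4 ℚ (u ^ 2)).toAffine.Nonsingular
    (25 * ((u ^ 2 - 4) * (9 * u ^ 2 - 4)) / 16)
    (25 * ((u ^ 2 - 4) * (9 * u ^ 2 - 4)) * (65 * u ^ 2 - 116) / 64) := by
  refine F4_ns h ?_
  ring

theorem F4_p1 {u v w : ℚ} (h : St4 u v w) : (F4 ℚ (u ^ 2)).toAffine.Nonsingular
    (-(25 * ((u ^ 2 - 4) * (9 * u ^ 2 - 4))) / 9)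
    (100 * ((u ^ 2 - 4) * (9 * u ^ 2 - 4)) * w / 27) := by
  refine F4_ns h ?_
  rw [div_pow, mul_pow, h.e2]
  ring

theorem F4_p2 {u v w : ℚ} (h : St4 u v w) : (F4 ℚ (u ^ 2)).toAffine.Nonsingular
    (-(9 * (u ^ 2 - 4) ^ 2 * (9 * u ^ 2 - 4)) / u ^ 2)
    (-(24 * (u ^ 2 - 4) ^ 2 * (9 * u ^ 2 - 4) * (8 * u ^ 2 - 9)) / u ^ 3) := by
  refine F4_ns h ?_
  have nu := (nz4 h).nu
  field_simp
  ring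

theorem F4_p3 {u v w : ℚ} (h : St4 u v w) : (F4 ℚ (u ^ 2)).toAffine.Nonsingular
    (-((u ^ 2 - 4) * (9 * u ^ 2 - 4) ^ 2) / u ^ 2)
    (-(8 * (u ^ 2 - 4) * (9 * u ^ 2 - 4) ^ 2 * (2 * u ^ 2 + 1)) / u ^ 3) := by
  refine F4_ns h ?_
  have nu := (nz4 h).nu
  field_simp
  ring

theorem F4_p4 {u v w : ℚ} (h : St4 u v w) : (F4 ℚ (u ^ 2)).toAffine.Nonsingular
    (-(25 * (u ^ 2 - 4) ^ 2 * (9 * u ^ 2 - 4)) / (9 * u ^ 2))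
    (-(200 * (u ^ 2 - 4) ^ 2 * (9 * u ^ 2 - 4) * (u ^ 2 + 5)) / (27 * u ^ 3)) := by
  refine F4_ns h ?_
  have nu := (nz4 h).nu
  field_simp
  ring

theorem F4_p5 {u v w : ℚ} (h : St4 u v w) : (F4 ℚ (u ^ 2)).toAffine.Nonsingular
    (729 * (9 * u ^ 2 - 4) ^ 2 * (u ^ 2 - 4) / v ^ 2)
    (216 * (9 * u ^ 2 - 4) ^ 2 * (u ^ 2 - 4) * (151 - 58 * u ^ 2) * w / v ^ 3) := by
  refine F4_ns h ?_
  have nD : 1160 - 209 * u ^ 2 ≠ 0 := by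
    rw [← h.e1]
    exact pow_ne_zero 2 (nz4 h).nv
  have e3 : (v ^ 3) ^ 2 = (1160 - 209 * u ^ 2) ^ 3 := by rw [← h.e1]; ring
  rw [div_pow, mul_pow, e3, h.e2, h.e1]
  refine frac _ _ _ _ _ _ nD ?_
  ring

theorem F4_p6 {u v w : ℚ} (h : St4 u v w) : (F4 ℚ (u ^ 2)).toAffine.Nonsingular
    (2401 * (9 * u ^ 2 - 4) * (u ^ 2 - 4) ^ 2 / v ^ 2)
    (392 * (9 * u ^ 2 - 4) * (u ^ 2 - 4) ^ 2 * (281 - 32 * u ^ 2) * w / v ^ 3) := by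
  refine F4_ns h ?_
  have nD : 1160 - 209 * u ^ 2 ≠ 0 := by
    rw [← h.e1]
    exact pow_ne_zero 2 (nz4 h).nv
  have e3 : (v ^ 3) ^ 2 = (1160 - 209 * u ^ 2) ^ 3 := by rw [← h.e1]; ring
  rw [div_pow, mul_pow, e3, h.e2, h.e1]
  refine frac _ _ _ _ _ _ nD ?_
  ring

theorem F4_p7 {u v w : ℚ} (h : St4 u v w) : (F4 ℚ (u ^ 2)).toAffine.Nonsingular
    (225 * (9 * u ^ 2 - 4) ^ 2 * (u ^ 2 - 4) / v ^ 2)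
    (600 * (9 * u ^ 2 - 4) ^ 2 * (u ^ 2 - 4) * (u ^ 2 + 5) * w / v ^ 3) := by
  refine F4_ns h ?_
  have nD : 1160 - 209 * u ^ 2 ≠ 0 := by
    rw [← h.e1]
    exact pow_ne_zero 2 (nz4 h).nv
  have e3 : (v ^ 3) ^ 2 = (1160 - 209 * u ^ 2) ^ 3 := by rw [← h.e1]; ring
  rw [div_pow, mul_pow, e3, h.e2, h.e1]
  refine frac _ _ _ _ _ _ nD ?_
  ring

theorem F4_pt {u v w : ℚ} (h : St4 u v w) (i : Fin 8) :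
    (F4 ℚ (u ^ 2)).toAffine.Nonsingular (X4 u v w i) (Y4 u v w i) := by
  fin_cases i
  · exact F4_p0 h
  · exact F4_p1 h
  · exact F4_p2 h
  · exact F4_p3 h
  · exact F4_p4 h
  · exact F4_p5 h
  · exact F4_p6 h
  · exact F4_p7 h

theorem cgX4 {p : ℕ} [Fact p.Prime] {u v w : ℚ} {r s t : ZMod p} (hu : Cg p u r) (hv : Cg p v s)
    (hw : Cg p w t) (h2 : (2 : ZMod p) ≠ 0) (h3 : (3 : ZMod p) ≠ 0) (hr : r ≠ 0) (hs : s ≠ 0)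
    (i : Fin 8) : Cg p (X4 u v w i) (X4 r s t i) := by
  have h16 : (16 : ZMod p) ≠ 0 := by
    have e : (16 : ZMod p) = 2 ^ 4 := by norm_num
    rw [e]
    exact pow_ne_zero _ h2
  have h9 : (9 : ZMod p) ≠ 0 := by
    have e : (9 : ZMod p) = 3 ^ 2 := by norm_num
    rw [e]
    exact pow_ne_zero _ h3
  have hu2 : r ^ 2 ≠ 0 := pow_ne_zero _ hr
  have hv2 : s ^ 2 ≠ 0 := pow_ne_zero _ hs
  have h9u : 9 * r ^ 2 ≠ 0 := mul_ne_zero h9 hu2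
  fin_cases i
  · exact (Cg.div (Cg.mul (Cg.ofNat 25) (Cg.mul (Cg.sub (Cg.pow hu 2) (Cg.ofNat 4)) (Cg.sub (Cg.mul (Cg.ofNat 9) (Cg.pow hu 2)) (Cg.ofNat 4)))) (Cg.ofNat 16) h16)
  · exact (Cg.div (Cg.neg (Cg.mul (Cg.ofNat 25) (Cg.mul (Cg.sub (Cg.pow hu 2) (Cg.ofNat 4)) (Cg.sub (Cg.mul (Cg.ofNat 9) (Cg.pow hu 2)) (Cg.ofNat 4))))) (Cg.ofNat 9) h9)
  · exact (Cg.div (Cg.neg (Cg.mul (Cg.mul (Cg.ofNat 9) (Cg.pow (Cg.sub (Cg.pow hu 2) (Cg.ofNat 4)) 2)) (Cg.sub (Cg.mul (Cg.ofNat 9) (Cg.pow hu 2)) (Cg.ofNat 4)))) (Cg.pow hu 2) hu2)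
  · exact (Cg.div (Cg.neg (Cg.mul (Cg.sub (Cg.pow hu 2) (Cg.ofNat 4)) (Cg.pow (Cg.sub (Cg.mul (Cg.ofNat 9) (Cg.pow hu 2)) (Cg.ofNat 4)) 2))) (Cg.pow hu 2) hu2)
  · exact (Cg.div (Cg.neg (Cg.mul (Cg.mul (Cg.ofNat 25) (Cg.pow (Cg.sub (Cg.pow hu 2) (Cg.ofNat 4)) 2)) (Cg.sub (Cg.mul (Cg.ofNat 9) (Cg.pow hu 2)) (Cg.ofNat 4)))) (Cg.mul (Cg.ofNat 9) (Cg.pow hu 2)) h9u)
  · exact (Cg.div (Cg.mul (Cg.mul (Cg.ofNat 729) (Cg.pow (Cg.sub (Cg.mul (Cg.ofNat 9) (Cg.pow hu 2)) (Cg.ofNat 4)) 2)) (Cg.sub (Cg.pow hu 2) (Cg.ofNat 4))) (Cg.pow hv 2) hv2)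
  · exact (Cg.div (Cg.mul (Cg.mul (Cg.ofNat 2401) (Cg.sub (Cg.mul (Cg.ofNat 9) (Cg.pow hu 2)) (Cg.ofNat 4))) (Cg.pow (Cg.sub (Cg.pow hu 2) (Cg.ofNat 4)) 2)) (Cg.pow hv 2) hv2)
  · exact (Cg.div (Cg.mul (Cg.mul (Cg.ofNat 225) (Cg.pow (Cg.sub (Cg.mul (Cg.ofNat 9) (Cg.pow hu 2)) (Cg.ofNat 4)) 2)) (Cg.sub (Cg.pow hu 2) (Cg.ofNat 4))) (Cg.pow hv 2) hv2)

theorem cgY4 {p : ℕ} [Fact p.Prime] {u v w : ℚ} {r s t : ZMod p} (hu : Cg p u r) (hv : Cg p v s)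
    (hw : Cg p w t) (h2 : (2 : ZMod p) ≠ 0) (h3 : (3 : ZMod p) ≠ 0) (hr : r ≠ 0) (hs : s ≠ 0)
    (i : Fin 8) : Cg p (Y4 u v w i) (Y4 r s t i) := by
  have h64 : (64 : ZMod p) ≠ 0 := by
    have e : (64 : ZMod p) = 2 ^ 6 := by norm_num
    rw [e]
    exact pow_ne_zero _ h2
  have h27 : (27 : ZMod p) ≠ 0 := by
    have e : (27 : ZMod p) = 3 ^ 3 := by norm_num
    rw [e]
    exact pow_ne_zero _ h3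
  have hu3 : r ^ 3 ≠ 0 := pow_ne_zero _ hr
  have hv3 : s ^ 3 ≠ 0 := pow_ne_zero _ hs
  have h27u : 27 * r ^ 3 ≠ 0 := mul_ne_zero h27 hu3
  fin_cases i
  · exact (Cg.div (Cg.mul (Cg.mul (Cg.ofNat 25) (Cg.mul (Cg.sub (Cg.pow hu 2) (Cg.ofNat 4)) (Cg.sub (Cg.mul (Cg.ofNat 9) (Cg.pow hu 2)) (Cg.ofNat 4)))) (Cg.sub (Cg.mul (Cg.ofNat 65) (Cg.pow hu 2)) (Cg.ofNat 116))) (Cg.ofNat 64) h64)
  · exact (Cg.div (Cg.mul (Cg.mul (Cg.ofNat 100) (Cg.mul (Cg.sub (Cg.pow hu 2) (Cg.ofNat 4)) (Cg.sub (Cg.mul (Cg.ofNat 9) (Cg.pow hu 2)) (Cg.ofNat 4)))) hw) (Cg.ofNat 27) h27)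
  · exact (Cg.div (Cg.neg (Cg.mul (Cg.mul (Cg.mul (Cg.ofNat 24) (Cg.pow (Cg.sub (Cg.pow hu 2) (Cg.ofNat 4)) 2)) (Cg.sub (Cg.mul (Cg.ofNat 9) (Cg.pow hu 2)) (Cg.ofNat 4))) (Cg.sub (Cg.mul (Cg.ofNat 8) (Cg.pow hu 2)) (Cg.ofNat 9)))) (Cg.pow hu 3) hu3)
  · exact (Cg.div (Cg.neg (Cg.mul (Cg.mul (Cg.mul (Cg.ofNat 8) (Cg.sub (Cg.pow hu 2) (Cg.ofNat 4))) (Cg.pow (Cg.sub (Cg.mul (Cg.ofNat 9) (Cg.pow hu 2)) (Cg.ofNat 4)) 2)) (Cg.add (Cg.mul (Cg.ofNat 2) (Cg.pow hu 2)) Cg.one))) (Cg.pow hu 3) hu3)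
  · exact (Cg.div (Cg.neg (Cg.mul (Cg.mul (Cg.mul (Cg.ofNat 200) (Cg.pow (Cg.sub (Cg.pow hu 2) (Cg.ofNat 4)) 2)) (Cg.sub (Cg.mul (Cg.ofNat 9) (Cg.pow hu 2)) (Cg.ofNat 4))) (Cg.add (Cg.pow hu 2) (Cg.ofNat 5)))) (Cg.mul (Cg.ofNat 27) (Cg.pow hu 3)) h27u)
  · exact (Cg.div (Cg.mul (Cg.mul (Cg.mul (Cg.mul (Cg.ofNat 216) (Cg.pow (Cg.sub (Cg.mul (Cg.ofNat 9) (Cg.pow hu 2)) (Cg.ofNat 4)) 2)) (Cg.sub (Cg.pow hu 2) (Cg.ofNat 4))) (Cg.sub (Cg.ofNat 151) (Cg.mul (Cg.ofNat 58) (Cg.pow hu 2)))) hw) (Cg.pow hv 3) hv3)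
  · exact (Cg.div (Cg.mul (Cg.mul (Cg.mul (Cg.mul (Cg.ofNat 392) (Cg.sub (Cg.mul (Cg.ofNat 9) (Cg.pow hu 2)) (Cg.ofNat 4))) (Cg.pow (Cg.sub (Cg.pow hu 2) (Cg.ofNat 4)) 2)) (Cg.sub (Cg.ofNat 281) (Cg.mul (Cg.ofNat 32) (Cg.pow hu 2)))) hw) (Cg.pow hv 3) hv3)
  · exact (Cg.div (Cg.mul (Cg.mul (Cg.mul (Cg.mul (Cg.ofNat 600) (Cg.pow (Cg.sub (Cg.mul (Cg.ofNat 9) (Cg.pow hu 2)) (Cg.ofNat 4)) 2)) (Cg.sub (Cg.pow hu 2) (Cg.ofNat 4))) (Cg.add (Cg.pow hu 2) (Cg.ofNat 5))) hw) (Cg.pow hv 3) hv3)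

theorem F4_rdn {p : ℕ} [Fact p.Prime] {a : ℚ} {r : ZMod p} (ha : Cg p a r)
    (hD : (F4 (ZMod p) r).Δ ≠ 0) : ∃ f, Rdn (F4 ℚ a) p (F4 (ZMod p) r) f :=
  exists_rdn Cg.zero
    (Cg.add (Cg.sub (Cg.mul (Cg.ofNat 106) (Cg.pow ha 2)) (Cg.mul (Cg.ofNat 240) ha)) (Cg.ofNat 560))
    Cg.zero
    (Cg.mul (Cg.ofNat 25) (Cg.pow (Cg.mul (Cg.sub ha (Cg.ofNat 4))
      (Cg.sub (Cg.mul (Cg.ofNat 9) ha) (Cg.ofNat 4))) 2))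
    Cg.zero hD

end Pool.Agent.InfS
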